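import Pool.Agent.Lib.MP_defcf3_al.BRP.Base
import Pool.Agent.Lib.MP_defcf3_al.BR.H79.DivSeven
import Pool.Agent.Lib.MP_defcf3_al.BR.H22.H90
import Pool.Agent.Lib.MP_defcf3_al.BR.H6.Ker
import Pool.Agent.Lib.MP_defcf3_al.BR.H4.Dlog
import Pool.Agent.Lib.MP_defcf3_al.BR.H32.RepZ

/-!
Project BR7, stage 4, module CYCFAC: the factor set of an algebra of degree ℓ which contains a Galois extension
of degree ℓ is a cup product.
-/

open Polynomial

namespace BRP.H38

universe u v

open BR7

variable {ℓ : ℕ} [Fact ℓ.Prime] [Fact (Odd ℓ)]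


/-- A normal open subgroup of index ℓ is the kernel of a continuous character modulo ℓ. -/
theorem char_of_index {G : Type u} [Group G] [TopologicalSpace G] [IsTopologicalGroup G] (N : Subgroup G)
    (hN : N.Normal) (ho : IsOpen (N : Set G)) (hi : N.index = ℓ) :
    ∃ χ : G → ZMod ℓ, (∀ g h, χ (g * h) = χ g + χ h) ∧ IsLocallyConstant χ ∧ ∀ g, g ∈ N ↔ χ g = 0 := by
  have h1 : Nat.card (G ⧸ N) = ℓ := hi
  have h2 : Nat.card (Multiplicative (ZMod ℓ)) = ℓ := by simp
  let e : G ⧸ N ≃* Multiplicative (ZMod ℓ) := mulEquivOfPrimeCardEq h1 h2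
  refine ⟨fun g => Multiplicative.toAdd (e (QuotientGroup.mk g)), fun g h => ?_, ?_, fun g => ?_⟩
  · simp only [QuotientGroup.mk_mul, map_mul, toAdd_mul]
  · rw [IsLocallyConstant.iff_exists_open]
    intro g
    refine ⟨(fun h => g⁻¹ * h) ⁻¹' (N : Set G), ho.preimage (continuous_const_mul _), ?_, ?_⟩
    · simp [one_mem]
    · intro h hh
      have h3 : (QuotientGroup.mk h : G ⧸ N) = QuotientGroup.mk g := by
        rw [eq_comm, QuotientGroup.eq]
        exact hh
      show Multiplicative.toAdd (e (QuotientGroup.mk h)) = _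
      rw [h3]
  · rw [← QuotientGroup.eq_one_iff]
    constructor
    · intro h
      show Multiplicative.toAdd (e (QuotientGroup.mk g)) = 0
      rw [h, map_one, toAdd_one]
    · intro h
      have h3 : e (QuotientGroup.mk g) = 1 :=
        Multiplicative.toAdd.injective (show Multiplicative.toAdd (e (QuotientGroup.mk g)) = 0 from h)
      exact (map_eq_one_iff e e.injective).1 h3

theorem cycfac : CycFacStatement.{u} ℓ := by
  intro F Ω _ _ _ _ _ B _ _ f R K _ _ hK hK7 i
  have hlp : Nat.Prime ℓ := Fact.out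
  obtain ⟨hcen, hsim, hfd⟩ := BR7.H79.repcsa F Ω B (Fin ℓ) f R
  have hZ := BR7.H32.repz F Ω B (Fin ℓ) f R
  obtain ⟨ι, U, hne, hdim, hspan, lc, tw, fac⟩ := R
  have hnt : Nontrivial B := inferInstance
  have hfdK : FiniteDimensional F K := Module.finite_of_finrank_pos (by rw [hK7]; exact hlp.pos)
  have hint : Algebra.IsIntegral F Ω := inferInstance
  -- a primitive element
  obtain ⟨α, hα⟩ := Field.exists_primitive_element F K
  have hdeg0 : (minpoly F α).natDegree = ℓ := by
    rw [← hK7]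
    exact (Field.primitive_element_iff_minpoly_natDegree_eq F α).1 hα
  have hsep0 : (minpoly F α).Separable := Algebra.IsSeparable.isSeparable F α
  set x : B := i α with hx
  have hmx : minpoly F x = minpoly F α := minpoly.algHom_eq i i.toRingHom.injective α
  have hdeg : (minpoly F x).natDegree = ℓ := by rw [hmx, hdeg0]
  have hsep : (minpoly F x).Separable := by rw [hmx]; exact hsep0
  -- embedding of K in Ω
  let φ : K →ₐ[F] Ω := IsSepClosed.lift
  set θ : Ω := φ α with hθd
  set p := (minpoly F x).map (algebraMap F Ω) with hp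
  have hpdeg : p.natDegree = ℓ := by rw [hp, natDegree_map, hdeg]
  have hpsep : p.Separable := Polynomial.Separable.map hsep
  have hsp : p.Splits := IsSepClosed.splits_codomain _ hsep
  have h0 : aeval (ι x) p = 0 := by
    rw [hp, aeval_map_algebraMap, aeval_algHom_apply, minpoly.aeval, map_zero]
  have hθr : p.IsRoot θ := by
    rw [IsRoot.def, hp, eval_map_algebraMap, hmx, hθd, aeval_algHom_apply, minpoly.aeval, map_zero]
  obtain ⟨v, hv0, hv, hone⟩ := BR7.H79.one_dim (ι x) p h0 hsp (nodup_roots hpsep) (by rw [hpdeg]; simp)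
    (by rw [hpdeg]; exact hlp.pos)
    (fun q hq h => BR7.H79.noRel ι hdim hspan x q (by rw [hpdeg] at hq; rw [hdeg]; exact hq) h) θ hθr
  let E : IntermediateField F Ω := φ.fieldRange
  let eE : K ≃ₐ[F] E := AlgEquiv.ofInjectiveField φ
  have hEfd : FiniteDimensional F E := LinearEquiv.finiteDimensional eE.toLinearEquiv
  have hEg : IsGalois F E := IsGalois.of_algEquiv eE
  have hE7 : Module.finrank F E = ℓ := by rw [← hK7]; exact eE.toLinearEquiv.finrank_eq.symm
  have hθE : θ ∈ E := ⟨α, rfl⟩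
  let N : Subgroup (Ω ≃ₐ[F] Ω) := E.fixingSubgroup
  have hNo : IsOpen (N : Set (Ω ≃ₐ[F] Ω)) := IntermediateField.fixingSubgroup_isOpen E
  have hNi : N.index = ℓ := by
    rw [← IntermediateField.finrank_eq_fixingSubgroup_index, hE7]
  have hNn : N.Normal := inferInstance
  have hres : (fun g h : N => f g h) ∈ B2 N Ωˣ :=
    BR7.H79.split_of_line f ι U lc tw fac x θ v hv0 hv hone _ fun h hh => by
      rw [IntermediateField.mem_fixingSubgroup_iff] at hh
      exact hh θ hθE
  obtain ⟨χ, hχ, hχc, hχN⟩ := char_of_index N hNn hNo hNi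
  have hH1 : H1Triv N Ωˣ := by
    intro c hc hcc
    have h1 := BR7.H22.h90 F Ω N hNo ⊤ isOpen_univ
    obtain ⟨y, hy⟩ := h1 (fun x => c x.1) (hc.comp_continuous continuous_subtype_val)
      (fun g h => hcc g.1 h.1)
    exact ⟨y, fun g => hy ⟨g, Subgroup.mem_top g⟩⟩
  obtain ⟨a, ha, hab⟩ := BR7.H6.ker (Ω ≃ₐ[F] Ω) Ωˣ (BR7.H4.disc F Ω) ℓ χ hχ hχc N hχN hH1 f hZ hres
  exact ⟨a, χ, ha, hχ, hχc, hab⟩

end BRP.H38
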