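import Pool.Agent.Lib.MP_defcf3_al.BRP.Base

/-!
Module INDEX of project BR7.
-/

set_option autoImplicit false

namespace BRP.H38

open BR7 BR7.H38

universe u

variable {ℓ : ℕ} [Fact ℓ.Prime] [Fact (Odd ℓ)]


/-- The stabilizer of a unit is open. -/
theorem isOpen_HZ (F : Type u) {Ω : Type u} [Field F] [Field Ω] [Algebra F Ω] [IsGalois F Ω]
    (ζ : Ωˣ) : IsOpen (HZ F ζ : Set (Ω ≃ₐ[F] Ω)) := by
  have h1 := stabilizer_isOpen_of_isIntegral (K := F) (L := Ω) (ζ : Ω)
  convert h1 using 1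
  ext g
  simp only [SetLike.mem_coe, MulAction.mem_stabilizer_iff]
  constructor
  · intro h
    exact congrArg Units.val h
  · intro h
    exact Units.ext h

/-- Module INDEX. -/
theorem index : IndexStatement.{u} ℓ := by
  intro F Ω _ _ _ _ ζ hζ U hU
  have hH := isOpen_HZ F ζ
  have hopen : IsOpen ((U ⊓ HZ F ζ : Subgroup (Ω ≃ₐ[F] Ω)) : Set (Ω ≃ₐ[F] Ω)) := hU.inter hH
  refine ⟨hopen, ?_, ?_⟩
  · have := Subgroup.quotient_finite_of_isOpen _ hopen
    exact Subgroup.finiteIndex_of_finite_quotient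
  · rw [Subgroup.inf_relIndex_left]
    have h1 : (HZ F ζ).relIndex U = (MulAction.orbit U ζ).ncard := by
      rw [← MulAction.index_stabilizer]
      rfl
    rw [h1]
    classical
    have h2 : MulAction.orbit U ζ ⊆ ((Finset.Icc 1 (ℓ - 1)).image (fun i : ℕ => ζ ^ i) : Finset Ωˣ) := by
      rintro _ ⟨g, rfl⟩
      have h3 : ((g : Ω ≃ₐ[F] Ω) • ζ) ^ ℓ = 1 := by
        rw [← smul_pow', hζ.pow_eq_one, smul_one]
      have h4 : (((g : Ω ≃ₐ[F] Ω) • ζ : Ωˣ) : Ω) ^ ℓ = 1 := by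
        have := congrArg Units.val h3
        simpa using this
      have hζ' : IsPrimitiveRoot (ζ : Ω) ℓ := IsPrimitiveRoot.coe_units_iff.2 hζ
      obtain ⟨i, hi, hi2⟩ := hζ'.eq_pow_of_pow_eq_one h4
      have hi3 : ζ ^ i = (g : Ω ≃ₐ[F] Ω) • ζ := by
        apply Units.ext
        rw [Units.val_pow_eq_pow_val]
        exact hi2
      have hi0 : i ≠ 0 := by
        rintro rfl
        rw [pow_zero] at hi3
        have h5 : ζ = 1 := by
          have h6 : (g : Ω ≃ₐ[F] Ω)⁻¹ • (1 : Ωˣ) = (g : Ω ≃ₐ[F] Ω)⁻¹ • ((g : Ω ≃ₐ[F] Ω) • ζ) := by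
            rw [← hi3]
          rw [smul_one, inv_smul_smul] at h6
          exact h6.symm
        exact hζ.ne_one (Fact.out : Nat.Prime ℓ).one_lt h5
      rw [Finset.coe_image]
      refine ⟨i, ?_, ?_⟩
      · simp only [Finset.coe_Icc, Set.mem_Icc]
        omega
      · exact hi3
    have h6 : (MulAction.orbit U ζ).ncard ≤ ℓ - 1 := by
      refine (Set.ncard_le_ncard h2 (Finset.finite_toSet _)).trans ?_
      rw [Set.ncard_coe_finset]
      refine Finset.card_image_le.trans ?_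
      simp
    have h7 : (MulAction.orbit U ζ).ncard ≠ 0 := by
      have hne : (MulAction.orbit U ζ).Nonempty := ⟨ζ, MulAction.mem_orbit_self ζ⟩
      exact (Set.ncard_pos ((Finset.finite_toSet _).subset h2)).2 hne |>.ne'
    rw [Nat.coprime_comm, Nat.Prime.coprime_iff_not_dvd (Fact.out : Nat.Prime ℓ)]
    intro hd
    have := Nat.le_of_dvd (Nat.pos_of_ne_zero h7) hd
    have hl := (Fact.out : Nat.Prime ℓ).pos
    omega

end BRP.H38
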