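import Pool.Agent.Lib.MP_defcf3_al.BRP.H38.Norm
import Pool.Agent.Lib.MP_defcf3_al.BR.H38.Splx

/-! KUMSURJ for a general prime. -/

namespace BRP.H38

universe u

variable {ℓ : ℕ} [Fact ℓ.Prime] [Fact (Odd ℓ)]

open BR7 BR7.H38

theorem kumsurj : KumSurjStatement.{u} ℓ := by
  intro F Ω _ _ _ _ _ ζ hζ P hP χ hχ hc
  have hζ7 : ζ ^ ℓ = 1 := hζ.pow_eq_one
  have h1 := H22.h90 F Ω (HZ F ζ) (isOpen_HZ F ζ) P hP (fun g => ζ ^ (χ g).val)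
    (hc.comp fun i => ζ ^ i.val) (fun g h => by
      have h2 : g • ζ = ζ := g.1.2
      rw [hχ, zpow_val_add hζ7, smul_pow', h2])
  obtain ⟨a, ha⟩ := h1
  exact ⟨a, fun g => by rw [ha g, inv_mul_cancel_right]⟩

end BRP.H38
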