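import Pool.Agent.Lib.MP_defcf3_al.BRP.Base

/-!
Modules SADD and SGAL of project BR7.
-/

set_option autoImplicit false

namespace BRP.H38

open BR7 BR7.H38

universe u

variable {ℓ : ℕ} [Fact ℓ.Prime] [Fact (Odd ℓ)]


section

variable {G A : Type u} [Group G] [TopologicalSpace G] [CommGroup A]
  [MulDistribMulAction G A]

theorem cls_of_mem {f : G → G → A} (hf : f ∈ Z2 G A) :
    cls G A f = QuotientGroup.mk ⟨f, hf⟩ := by
  unfold cls
  rw [dif_pos hf]

theorem cls_mul {f f' : G → G → A} (hf : f ∈ Z2 G A) (hf' : f' ∈ Z2 G A) :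
    cls G A (f * f') = cls G A f * cls G A f' := by
  rw [cls_of_mem hf, cls_of_mem hf', cls_of_mem (mul_mem hf hf')]
  rfl

theorem cls_one : cls G A 1 = 1 := by
  rw [cls_of_mem (one_mem _)]
  rfl

theorem cls_pow {f : G → G → A} (hf : f ∈ Z2 G A) (k : ℕ) :
    cls G A (f ^ k) = cls G A f ^ k := by
  induction k with
  | zero => rw [pow_zero, pow_zero, cls_one]
  | succ k ih => rw [pow_succ, pow_succ, cls_mul (pow_mem hf k) hf, ih]

theorem cls_eq {f f' : G → G → A} (hf : f ∈ Z2 G A) (hf' : f' ∈ Z2 G A)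
    (h : f * f'⁻¹ ∈ B2 G A) : cls G A f = cls G A f' := by
  rw [cls_of_mem hf, cls_of_mem hf', QuotientGroup.eq, Subgroup.mem_subgroupOf]
  have h1 := inv_mem h
  rw [mul_inv, inv_inv] at h1
  exact h1

theorem cls_eq_one {f : G → G → A} (hf : f ∈ Z2 G A) (h : f ∈ B2 G A) : cls G A f = 1 := by
  rw [← cls_one (G := G) (A := A)]
  apply cls_eq hf (one_mem _)
  rw [inv_one, mul_one]
  exact h

theorem mem_B2_of_cls {f : G → G → A} (hf : f ∈ Z2 G A) (h : cls G A f = 1) : f ∈ B2 G A := by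
  rw [cls_of_mem hf, QuotientGroup.eq_one_iff, Subgroup.mem_subgroupOf] at h
  exact h

theorem cup_eq_gcup (n : ℕ) (a : A) (χ : G → ZMod n) :
    cup n a χ = gcup (X := PUnit.{u+1}) n (fun _ => a) (fun g _ => χ g) := by
  funext g h
  simp [cup, gcup]

theorem openStab_punit : OpenStab G PUnit.{u+1} := by
  intro x
  have h1 : {g : G | g • x = x} = Set.univ := by
    ext g
    simp
  rw [h1]
  exact isOpen_univ

variable [IsTopologicalGroup G]

theorem cup_mem_Z2 (hZ : GcupZStatement.{u}) (hA : Disc G A) (n : ℕ) [NeZero n] (a : A)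
    (ha : ∀ g : G, g • a = a) (χ : G → ZMod n) (hχ : ∀ g h, χ (g * h) = χ g + χ h)
    (hc : IsLocallyConstant χ) : cup n a χ ∈ Z2 G A := by
  rw [cup_eq_gcup]
  exact hZ G A PUnit hA openStab_punit n _ _ (fun g _ => (ha g).symm) (fun g h _ => hχ g h)
    (fun _ => hc)

theorem cup_mul (n : ℕ) (a a' : A) (χ : G → ZMod n) :
    cup n (a * a') χ = cup n a χ * cup n a' χ := by
  funext g h
  simp [cup, mul_pow]

theorem cup_add_mem (hD : GcupAddStatement.{u}) (hA : Disc G A) (n : ℕ) [NeZero n] (a : A)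
    (ha : ∀ g : G, g • a = a) (χ ψ : G → ZMod n) (hχ : ∀ g h, χ (g * h) = χ g + χ h)
    (hψ : ∀ g h, ψ (g * h) = ψ g + ψ h)
    (hc : IsLocallyConstant χ) (hc' : IsLocallyConstant ψ) :
    cup n a (fun g => χ g + ψ g) * (cup n a χ * cup n a ψ)⁻¹ ∈ B2 G A := by
  rw [cup_eq_gcup, cup_eq_gcup, cup_eq_gcup]
  exact hD G A PUnit hA openStab_punit n _ _ _ (fun g _ => (ha g).symm) (fun g h _ => hχ g h)
    (fun g h _ => hψ g h) (fun _ => hc) (fun _ => hc')

theorem cup_tors (hT : GcupTorsStatement.{u}) (hA : Disc G A) (n : ℕ) [NeZero n] (a : A)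
    (ha : ∀ g : G, g • a = a) (χ : G → ZMod n) (hχ : ∀ g h, χ (g * h) = χ g + χ h)
    (hc : IsLocallyConstant χ) : cup n a χ ^ n ∈ B2 G A := by
  rw [cup_eq_gcup]
  exact hT G A PUnit hA openStab_punit n _ _ (fun g _ => (ha g).symm) (fun g h _ => hχ g h)
    (fun _ => hc)

theorem cls_cup_add (hZ : GcupZStatement.{u}) (hD : GcupAddStatement.{u}) (hA : Disc G A)
    (n : ℕ) [NeZero n] (a : A)
    (ha : ∀ g : G, g • a = a) (χ ψ : G → ZMod n) (hχ : ∀ g h, χ (g * h) = χ g + χ h)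
    (hψ : ∀ g h, ψ (g * h) = ψ g + ψ h)
    (hc : IsLocallyConstant χ) (hc' : IsLocallyConstant ψ) :
    cls G A (cup n a (fun g => χ g + ψ g)) = cls G A (cup n a χ) * cls G A (cup n a ψ) := by
  have z1 := cup_mem_Z2 hZ hA n a ha χ hχ hc
  have z2 := cup_mem_Z2 hZ hA n a ha ψ hψ hc'
  have hadd : ∀ g h, χ (g * h) + ψ (g * h) = χ g + ψ g + (χ h + ψ h) := by
    intro g h
    rw [hχ, hψ]
    abel
  have hcc : IsLocallyConstant (fun g => χ g + ψ g) := hc.add hc'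
  have z3 := cup_mem_Z2 hZ hA n a ha (fun g => χ g + ψ g) hadd hcc
  rw [← cls_mul z1 z2]
  exact cls_eq z3 (mul_mem z1 z2) (cup_add_mem hD hA n a ha χ ψ hχ hψ hc hc')

theorem cls_cup_nsmul (hZ : GcupZStatement.{u}) (hD : GcupAddStatement.{u}) (hA : Disc G A)
    (n : ℕ) [NeZero n] (a : A)
    (ha : ∀ g : G, g • a = a) (χ : G → ZMod n) (hχ : ∀ g h, χ (g * h) = χ g + χ h)
    (hc : IsLocallyConstant χ) (k : ℕ) :
    cls G A (cup n a (fun g => (k : ZMod n) * χ g)) = cls G A (cup n a χ) ^ k := by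
  induction k with
  | zero =>
    have h1 : cup n a (fun g => ((0 : ℕ) : ZMod n) * χ g) = 1 := by
      funext g h
      simp only [cup, Nat.cast_zero, zero_mul, carry, ZMod.val_zero, add_zero, Nat.zero_div,
        pow_zero]
      rfl
    rw [h1, pow_zero, cls_one]
  | succ k ih =>
    have h1 : (fun g => ((k + 1 : ℕ) : ZMod n) * χ g) =
        (fun g => (fun g => (k : ZMod n) * χ g) g + χ g) := by
      funext g
      push_cast
      ring
    rw [h1, cls_cup_add hZ hD hA n a ha (fun g => (k : ZMod n) * χ g) χ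
      (fun g h => by rw [hχ]; ring) hχ (hc.comp fun z => (k : ZMod n) * z) hc, ih, pow_succ]

end

section Fields

variable (F : Type u) {Ω : Type u} [Field F] [Field Ω] [Algebra F Ω] [IsGalois F Ω]

omit [IsGalois F Ω] in
theorem disc_HZ (hD : Disc (Ω ≃ₐ[F] Ω) Ωˣ) (ζ : Ωˣ) : Disc (HZ F ζ) Ωˣ := fun a =>
  (hD a).preimage continuous_subtype_val

theorem inL_smul {ζ a : Ωˣ} (ha : InL F ζ a) (g : HZ F ζ) : g • a = a := ha g g.2

end Fields

/-- Module SADD. -/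
theorem sadd (hZ : GcupZStatement.{u}) (hD : GcupAddStatement.{u}) (hT : GcupTorsStatement.{u})
    (hDisc : DiscStatement.{u}) (hK : KumStatement.{u} ℓ) : SymAddStatement.{u} ℓ := by
  intro F Ω _ _ _ _ _ ζ hζ
  obtain ⟨k1, k2, k3, k4, k5, k6⟩ := hK F Ω ζ hζ
  have hA := disc_HZ F (hDisc F Ω) ζ
  have z : ∀ a b : Ωˣ, InL F ζ a → InL F ζ b → cup ℓ a (kum ℓ F ζ b) ∈ Z2 (HZ F ζ) Ωˣ :=
    fun a b ha hb => cup_mem_Z2 hZ hA ℓ a (inL_smul F ha) _ (k3 b hb) (k4 b hb)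
  refine ⟨z, ?_, ?_, ?_⟩
  · intro a a' b ha ha' hb
    unfold symb
    rw [cup_mul, cls_mul (z a b ha hb) (z a' b ha' hb)]
  · intro a b b' ha hb hb'
    unfold symb
    have h1 : kum ℓ F ζ (b * b') = fun g => kum ℓ F ζ b g + kum ℓ F ζ b' g :=
      funext fun g => k5 b b' hb hb' g
    rw [h1, cls_cup_add hZ hD hA ℓ a (inL_smul F ha) _ _ (k3 b hb) (k3 b' hb') (k4 b hb)
      (k4 b' hb')]
  · intro a b ha hb
    unfold symb
    rw [← cls_pow (z a b ha hb)]
    exact cls_eq_one (pow_mem (z a b ha hb) ℓ)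
      (cup_tors hT hA ℓ a (inL_smul F ha) _ (k3 b hb) (k4 b hb))

/-- Module SGAL. -/
theorem sgal (hK : KumStatement.{u} ℓ) (hD : GcupAddStatement.{u}) (hZ : GcupZStatement.{u})
    (_hC : ConjCStatement.{u}) (hDisc : DiscStatement.{u}) : SymGalStatement.{u} ℓ := by
  intro F Ω _ _ _ _ _ ζ hζ γ k hH hγ a b ha hb
  obtain ⟨k1, k2, k3, k4, k5, k6⟩ := hK F Ω ζ hζ
  have hA := disc_HZ F (hDisc F Ω) ζ
  have ha' := (k6 γ k hγ a ha).1
  obtain ⟨-, hb2⟩ := k6 γ k hγ b hb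
  -- the conjugated character
  let cjf : HZ F ζ → HZ F ζ := fun g => ⟨γ⁻¹ * g * γ, hH g g.2⟩
  have hcont : Continuous cjf := by
    apply Continuous.subtype_mk
    exact (continuous_const.mul continuous_subtype_val).mul continuous_const
  have hmul : ∀ g h, cjf (g * h) = cjf g * cjf h := by
    intro g h
    apply Subtype.ext
    change γ⁻¹ * ((g : Ω ≃ₐ[F] Ω) * h) * γ = (γ⁻¹ * g * γ) * (γ⁻¹ * h * γ)
    group
  have e1 : conjC (HZ F ζ) γ hH (cup ℓ a (kum ℓ F ζ b)) =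
      cup ℓ (γ • a) (fun g => kum ℓ F ζ b (cjf g)) := by
    funext g h
    change γ • (a ^ carry ℓ (kum ℓ F ζ b (cjf g)) (kum ℓ F ζ b (cjf h))) =
      (γ • a) ^ carry ℓ (kum ℓ F ζ b (cjf g)) (kum ℓ F ζ b (cjf h))
    rw [smul_pow']
  have e2 : kum ℓ F ζ (γ • b) = fun g => (k : ZMod ℓ) * kum ℓ F ζ b (cjf g) :=
    funext fun g => (hb2 g (cjf g) rfl).symm
  unfold symb
  rw [e1, e2, cls_cup_nsmul hZ hD hA ℓ (γ • a) (inL_smul F ha') (fun g => kum ℓ F ζ b (cjf g))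
    (fun g h => by rw [hmul, k3 b hb]) ((k4 b hb).comp_continuous hcont) k]

end BRP.H38
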